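import Pool.Agent.Helper84.TN.Supp
import Pool.Agent.Helper84.MP.Cut
import Pool.Agent.Helper29.MP.RegBdd

set_option autoImplicit false

/-!
Sets of words with small support rank at the initial segments.
-/

namespace Pool.Agent.Helper79.MP

open Finset Pool.Agent.Helper84.MP
open Pool.Agent.Helper84.TN (value rk SuppRank)
open Pool.Agent.Helper82.CF (rep)

theorem suppRank_singleton {n b s : ℕ} {S : Finset (Fin n → Fin b)} {D : Finset (Fin n)}
    (h : SuppRank S D s) (i : Fin n) : SuppRank S {i} b := by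
  obtain ⟨F, hF, f, hf, -⟩ := h
  exact ⟨F, hF, f, hf, Pool.Agent.Helper29.MP.rk_singleton f i⟩

/-- T3 -/
theorem cut_rate {A : Set ℕ} {n b x s : ℕ} (S : Finset (Fin n → Fin b)) (hne : S.Nonempty)
    (hr : ∀ k, SuppRank S (ini n k) s) (hA : ∀ w ∈ S, value w ∈ A ∧ value w ≤ x) :
    ∃ m ≤ 2 * x, Real.log S.card ≤ 3 * rep A m * Real.log (n * (b + 1) * max s b) := by
  rcases Nat.eq_zero_or_pos n with hn | hn
  · subst hn
    refine ⟨0, Nat.zero_le _, ?_⟩
    have h1 : S.card = 1 := by
      refine le_antisymm (Finset.card_le_one.2 fun a _ a' _ => Subsingleton.elim a a')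
        (Finset.card_pos.2 hne)
    rw [h1]
    simp
  · obtain ⟨T, hT, hset, hb⟩ := Pool.Agent.Helper29.MP.exists_path n n hn le_rfl
    have huniv : T.set = Finset.univ := by
      rw [hset]
      ext i
      simp
    have hr' : ∀ D ∈ T.blocks, SuppRank S D (max s b) := by
      intro D hD
      rcases hb D hD with ⟨j, rfl⟩ | ⟨i, rfl⟩
      · obtain ⟨F, hF, f, hf, h⟩ := hr j
        exact ⟨F, hF, f, hf, h.trans (le_max_left s b)⟩
      · obtain ⟨F, hF, f, hf, h⟩ := suppRank_singleton (hr 0) i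
        exact ⟨F, hF, f, hf, h.trans (le_max_right s b)⟩
    obtain ⟨m, hm, h⟩ := Pool.Agent.Helper84.TN.supp_int_rate T hT huniv S hne hr' hA
    refine ⟨m, hm, ?_⟩
    have hs : 1 ≤ max s b := (hr' _ T.set_mem_blocks).pos hne
    obtain ⟨w, hw⟩ := hne
    have hb1 : 1 ≤ b := by
      have := (w ⟨0, hn⟩).pos
      omega
    have hbR : (1 : ℝ) ≤ b := by exact_mod_cast hb1
    have hnR : (1 : ℝ) ≤ n := by exact_mod_cast hn
    have hsR : (1 : ℝ) ≤ ((max s b : ℕ) : ℝ) := by exact_mod_cast hs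
    have hpos : 0 < Real.log (n * (b + 1) * ((max s b : ℕ) : ℝ)) := by
      refine Real.log_pos ?_
      have h1 : (2 : ℝ) ≤ n * (b + 1) := by nlinarith
      nlinarith
    rw [div_le_iff₀ (by linarith)] at h
    linarith

end Pool.Agent.Helper79.MP
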