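import Pool.Agent.Helper84.MP.Defs

/-!
The number of words of a state.
-/

set_option autoImplicit false

namespace Pool.Agent.Helper84.MP

open Finset

variable {ι β : Type*} [Fintype ι] [DecidableEq ι] [Fintype β] [DecidableEq β]

/-- Piece C1 -/
theorem card_state {D : ℕ → Finset ι} {j L : ℕ} (hD0 : D 0 = ∅) (hDj : D j = univ)
    (hmono : ∀ t, D t ⊆ D (t + 1)) (hL : ∀ t < j, (D (t + 1) \ D t).card ≤ L)
    (hβ : 1 ≤ Fintype.card β) {W : Finset (ι → β)} {J : Finset ℕ} (hJ : J ⊆ range j)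
    (h : ∀ t < j, t ∉ J → ∀ w ∈ W, ∀ w' ∈ W, ∀ i ∈ D (t + 1) \ D t, w i = w' i) :
    W.card ≤ Fintype.card β ^ (L * J.card) := by
  classical
  have _ := hmono
  set E : Finset ι := J.biUnion fun t => D (t + 1) \ D t with hE
  have hEc : E.card ≤ L * J.card := by
    refine Finset.card_biUnion_le.trans ?_
    refine (Finset.sum_le_card_nsmul J _ L fun t ht => hL t (Finset.mem_range.mp (hJ ht))).trans ?_
    rw [smul_eq_mul, mul_comm]
  -- every letter appears at some step
  have hstep : ∀ i : ι, ∃ t < j, i ∈ D (t + 1) \ D t := by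
    intro i
    have h1 : ∃ k, i ∈ D k := ⟨j, by rw [hDj]; exact Finset.mem_univ i⟩
    obtain ⟨k, hk, hmin⟩ : ∃ k, i ∈ D k ∧ ∀ l < k, i ∉ D l :=
      ⟨Nat.find h1, Nat.find_spec h1, fun l hl => Nat.find_min h1 hl⟩
    have hk0 : k ≠ 0 := by
      rintro rfl
      rw [hD0] at hk
      exact absurd hk (Finset.notMem_empty i)
    obtain ⟨t, rfl⟩ := Nat.exists_eq_succ_of_ne_zero hk0
    refine ⟨t, ?_, Finset.mem_sdiff.mpr ⟨hk, hmin t (Nat.lt_succ_self t)⟩⟩
    by_contra hcon
    have h2 : j < t + 1 := by omega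
    exact hmin j h2 (by rw [hDj]; exact Finset.mem_univ i)
  let φ : (ι → β) → (E → β) := fun w i => w i
  have hinj : Set.InjOn φ (W : Set (ι → β)) := by
    intro w hw w' hw' hww
    funext i
    obtain ⟨t, ht, hi⟩ := hstep i
    by_cases htJ : t ∈ J
    · exact congrFun hww ⟨i, Finset.mem_biUnion.mpr ⟨t, htJ, hi⟩⟩
    · exact h t ht htJ w hw w' hw' i hi
  have h3 : W.card = (W.image φ).card := (Finset.card_image_of_injOn hinj).symm
  rw [h3]
  refine (Finset.card_le_univ _).trans ?_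
  rw [Fintype.card_fun, Fintype.card_coe]
  exact Nat.pow_le_pow_right hβ hEc

end Pool.Agent.Helper84.MP
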